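import Mathlib
import Pool.Agent.Helper654.PtakL

/-!
# von Neumann's inequality for complex matrices, polynomial version
-/

set_option autoImplicit false

open Polynomial Filter Topology

namespace Pool.Agent.W2helper49.CQ

variable {n : ℕ}

lemma aeval_clm (B : Matrix (Fin n) (Fin n) ℂ) (p : ℂ[X]) :
    aeval (Matrix.toEuclideanCLM (n := Fin n) (𝕜 := ℂ) B) p =
      Matrix.toEuclideanCLM (n := Fin n) (𝕜 := ℂ) (aeval B p) := by
  exact Polynomial.aeval_algHom_apply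
    ((Matrix.toEuclideanCLM (n := Fin n) (𝕜 := ℂ)).toAlgEquiv.toAlgHom) B p

/-- the roots of the characteristic polynomial are bounded by the norm -/
lemma root_norm_le [NeZero n] (B : Matrix (Fin n) (Fin n) ℂ) {z : ℂ} (hz : z ∈ B.charpoly.roots) :
    ‖z‖ ≤ ‖Matrix.toEuclideanCLM (n := Fin n) (𝕜 := ℂ) B‖ := by
  have h1 : z ∈ spectrum ℂ B :=
    Matrix.mem_spectrum_of_isRoot_charpoly (Polynomial.isRoot_of_mem_roots hz)
  have h2 : z ∈ spectrum ℂ (Matrix.toEuclideanCLM (n := Fin n) (𝕜 := ℂ) B) := by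
    have h3 := AlgEquiv.spectrum_eq ((Matrix.toEuclideanCLM (n := Fin n) (𝕜 := ℂ)).toAlgEquiv) B
    change z ∈ spectrum ℂ ((Matrix.toEuclideanCLM (n := Fin n) (𝕜 := ℂ)).toAlgEquiv B)
    rw [h3]
    exact h1
  exact spectrum.norm_le_norm_of_mem h2

lemma list_prod (l : List ℂ) (k : ℕ) (h : l.length = k) (f : ℂ → ℂ[X]) :
    ∏ j : Fin k, f (l.get (Fin.cast h.symm j)) = (l.map f).prod := by
  subst h
  rw [← List.prod_ofFn]
  congr 1
  exact List.ofFn_getElem_eq_map l f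

/-- strict version -/
lemma vN_strict [NeZero n] (B : Matrix (Fin n) (Fin n) ℂ) {s : ℝ} (hs0 : 0 < s) (hs1 : s < 1)
    (hB : ‖Matrix.toEuclideanCLM (n := Fin n) (𝕜 := ℂ) B‖ ≤ s) (F : ℂ[X]) (M : ℝ)
    (hF : ∀ ζ : ℂ, ‖ζ‖ = 1 → ‖F.eval ζ‖ ≤ M) :
    ‖aeval (Matrix.toEuclideanCLM (n := Fin n) (𝕜 := ℂ) B) F‖ ≤ M := by
  obtain ⟨m, rfl⟩ : ∃ m, n = m + 1 := Nat.exists_eq_succ_of_ne_zero (NeZero.ne n)
  have hsplit : B.charpoly.Splits := IsAlgClosed.splits _
  have hcard : B.charpoly.roots.toList.length = m + 1 := by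
    rw [Multiset.length_toList, ← hsplit.natDegree_eq_card_roots, Matrix.charpoly_natDegree_eq_dim,
      Fintype.card_fin]
  have hprod : B.charpoly = ∏ j : Fin (m + 1),
      (X - C (B.charpoly.roots.toList.get (Fin.cast hcard.symm j))) := by
    rw [list_prod _ (m + 1) hcard (fun x => X - C x)]
    conv_lhs => rw [hsplit.eq_prod_roots_of_monic (Matrix.charpoly_monic B)]
    conv_lhs => rw [← Multiset.coe_toList B.charpoly.roots, Multiset.map_coe, Multiset.prod_coe]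
  refine Pool.Agent.Helper654.Ptak.vN_poly hs0 hs1
    (fun j => B.charpoly.roots.toList.get (Fin.cast hcard.symm j)) ?_ _ (hB.trans hs1.le) ?_ F M hF
  · intro j
    refine (root_norm_le B ?_).trans hB
    rw [← Multiset.mem_toList]
    exact List.get_mem _ _
  · rw [← hprod, aeval_clm, Matrix.aeval_self_charpoly, map_zero]

/-- von Neumann's inequality -/
theorem vN [NeZero n] (B : Matrix (Fin n) (Fin n) ℂ)
    (hB : ‖Matrix.toEuclideanCLM (n := Fin n) (𝕜 := ℂ) B‖ ≤ 1) (F : ℂ[X]) (M : ℝ)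
    (hF : ∀ ζ : ℂ, ‖ζ‖ = 1 → ‖F.eval ζ‖ ≤ M) :
    ‖Matrix.toEuclideanCLM (n := Fin n) (𝕜 := ℂ) (aeval B F)‖ ≤ M := by
  rw [← aeval_clm]
  set T := Matrix.toEuclideanCLM (n := Fin n) (𝕜 := ℂ) B with hT
  have h1 : ∀ s : ℝ, 0 < s → s < 1 → ‖aeval ((s : ℂ) • T) F‖ ≤ M := by
    intro s hs0 hs1
    have h2 : (s : ℂ) • T = Matrix.toEuclideanCLM (n := Fin n) (𝕜 := ℂ) ((s : ℂ) • B) := by
      rw [map_smul]
    rw [h2]
    apply vN_strict _ hs0 hs1 _ F M hF
    rw [map_smul, norm_smul, Complex.norm_real, Real.norm_eq_abs, abs_of_pos hs0]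
    calc s * ‖T‖ ≤ s * 1 := by gcongr
      _ = s := mul_one s
  have h3 : Continuous fun s : ℝ => ‖aeval ((s : ℂ) • T) F‖ := by
    have h4 : Continuous fun s : ℝ => (s : ℂ) • T := by fun_prop
    exact (F.continuous_aeval.comp h4).norm
  have h5 : Tendsto (fun s : ℝ => ‖aeval ((s : ℂ) • T) F‖) (𝓝[<] 1) (𝓝 ‖aeval T F‖) := by
    have h6 := (h3.tendsto 1).mono_left (nhdsWithin_le_nhds (s := Set.Iio (1 : ℝ)))
    simpa using h6
  refine le_of_tendsto h5 ?_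
  filter_upwards [Ioo_mem_nhdsLT (show (0 : ℝ) < 1 by norm_num)] with s hs
  exact h1 s hs.1 hs.2

end Pool.Agent.W2helper49.CQ
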