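import Mathlib
import Pool.Agent.W2helper49.CQ.Stampfli
import Pool.Agent.W2helper49.CQ.VN

/-!
# The scaled `q`-numerical range contains a large disc
-/

set_option autoImplicit false

open Polynomial ComplexConjugate

namespace Pool.Agent.W2helper49.CQ

/-- The scaled `q`-numerical range: the numbers `⟨A x, y⟩ / q` for unit vectors `x, y` with
`⟨x, y⟩ = q`, where `⟨u, v⟩ = ∑ uᵢ conj vᵢ` (in Mathlib `inner ℂ v u`). -/
def Omega {n : ℕ} (A : Matrix (Fin n) (Fin n) ℂ) (q : ℂ) : Set ℂ :=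
  {z | ∃ x y : EuclideanSpace ℂ (Fin n), ‖x‖ = 1 ∧ ‖y‖ = 1 ∧ inner ℂ y x = q ∧
    z = inner ℂ y (Matrix.toEuclideanCLM (n := Fin n) (𝕜 := ℂ) A x) / q}

variable {E : Type*} [NormedAddCommGroup E] [InnerProductSpace ℂ E]

lemma inner_self_one {x : E} (hx : ‖x‖ = 1) : inner ℂ x x = (1 : ℂ) := by
  rw [inner_self_eq_norm_sq_to_K, hx]; simp

/-- the vector `y` -/
lemma norm_comb {x e : E} (hx : ‖x‖ = 1) (hxe : inner ℂ x e = (0 : ℂ)) (α β : ℂ) :
    ‖α • x + β • e‖ ^ 2 = ‖α‖ ^ 2 + ‖β‖ ^ 2 * ‖e‖ ^ 2 := by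
  rw [@norm_add_sq ℂ, inner_smul_left, inner_smul_right, hxe, norm_smul, norm_smul, hx]
  simp only [mul_zero, map_zero, mul_one, add_zero, mul_pow]

lemma circle {X : E →L[ℂ] E} {x : E} {a q ζ : ℂ} (hx : ‖x‖ = 1) (ha : inner ℂ x (X x) = a)
    (hq0 : q ≠ 0) (hq1 : ‖q‖ ^ 2 ≤ 1) (hr : 0 < ‖X x - a • x‖) (hζ : ‖ζ‖ = 1) :
    ∃ y : E, ‖y‖ = 1 ∧ inner ℂ y x = q ∧ inner ℂ y (X x) =
      q * (a + ((‖X x - a • x‖ * √(1 - ‖q‖ ^ 2) / ‖q‖ : ℝ) : ℂ) * ζ) := by
  set e := X x - a • x with he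
  set r : ℝ := ‖e‖ with hrd
  set s : ℝ := √(1 - ‖q‖ ^ 2) with hs
  have hs2 : s ^ 2 = 1 - ‖q‖ ^ 2 := Real.sq_sqrt (by linarith)
  have hqn : 0 < ‖q‖ := norm_pos_iff.2 hq0
  set ρ : ℝ := r * s / ‖q‖ with hρ
  have hxx := inner_self_one hx
  have hxe : inner ℂ x e = (0 : ℂ) := by
    rw [he, inner_sub_right, inner_smul_right, ha, hxx]; ring
  have hex : inner ℂ e x = (0 : ℂ) := by
    rw [← inner_conj_symm, hxe, map_zero]
  have hee : inner ℂ e e = ((r : ℂ)) ^ 2 := by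
    rw [inner_self_eq_norm_sq_to_K]; rfl
  have hrC : (r : ℂ) ≠ 0 := by exact_mod_cast hr.ne'
  set β : ℂ := conj (q * ρ * ζ / (r : ℂ) ^ 2) with hβ
  have hβc : conj β = q * ρ * ζ / (r : ℂ) ^ 2 := by rw [hβ, Complex.conj_conj]
  have hβn : ‖β‖ = ‖q‖ * ρ / r ^ 2 := by
    rw [hβ, RCLike.norm_conj, norm_div, norm_mul, norm_mul, hζ, norm_pow, Complex.norm_real,
      Complex.norm_real, Real.norm_eq_abs, Real.norm_eq_abs, abs_of_pos hr, abs_of_nonneg, mul_one]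
    positivity
  refine ⟨conj q • x + β • e, ?_, ?_, ?_⟩
  · have h1 := norm_comb hx hxe (conj q) β
    rw [RCLike.norm_conj, hβn] at h1
    have h2 : ‖q‖ * ρ / r ^ 2 = s / r := by
      rw [hρ]; field_simp
    rw [h2, ← hrd, div_pow, div_mul_cancel₀ _ (by positivity), hs2] at h1
    have h3 : ‖conj q • x + β • e‖ ^ 2 = 1 ^ 2 := by rw [h1]; ring
    exact (pow_left_inj₀ (norm_nonneg _) zero_le_one two_ne_zero).1 h3
  · rw [inner_add_left, inner_smul_left, inner_smul_left, hxx, hex, Complex.conj_conj]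
    ring
  · have hX : X x = a • x + e := by rw [he]; abel
    rw [hX, inner_add_right, inner_smul_right, inner_add_left, inner_add_left, inner_smul_left,
      inner_smul_left, inner_smul_left, inner_smul_left, hxx, hex, hxe, hee, Complex.conj_conj, hβc]
    field_simp
    ring

/-- a vector with the prescribed inner product in the scalar case -/
lemma exists_y {n : ℕ} (hn : 2 ≤ n) {x : EuclideanSpace ℂ (Fin n)} (hx : ‖x‖ = 1) {q : ℂ}
    (hq1 : ‖q‖ ^ 2 ≤ 1) : ∃ y : EuclideanSpace ℂ (Fin n), ‖y‖ = 1 ∧ inner ℂ y x = q := by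
  obtain ⟨w, hw1, hw2⟩ : ∃ w : EuclideanSpace ℂ (Fin n), ‖w‖ = 1 ∧ inner ℂ x w = (0 : ℂ) := by
    have hlt : Module.finrank ℂ (Submodule.span ℂ {x}) <
        Module.finrank ℂ (EuclideanSpace ℂ (Fin n)) := by
      have h1 := finrank_span_singleton (K := ℂ) (v := x) (by
        intro h; rw [h, norm_zero] at hx; exact zero_ne_one hx)
      rw [h1, finrank_euclideanSpace, Fintype.card_fin]
      omega
    have hne : (Submodule.span ℂ {x})ᗮ ≠ ⊥ := by
      intro h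
      have h2 := Submodule.finrank_add_finrank_orthogonal (Submodule.span ℂ {x})
      rw [h, finrank_bot] at h2
      omega
    obtain ⟨y, hy, hy0⟩ := Submodule.exists_mem_ne_zero_of_ne_bot hne
    have hy' : ‖y‖ ≠ 0 := norm_ne_zero_iff.2 hy0
    refine ⟨((‖y‖⁻¹ : ℝ) : ℂ) • y, ?_, ?_⟩
    · rw [norm_smul, Complex.norm_real, norm_inv, norm_norm, inv_mul_cancel₀ hy']
    · rw [inner_smul_right, (Submodule.mem_orthogonal _ _).1 hy x
        (Submodule.mem_span_singleton_self x), mul_zero]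
  have hxx := inner_self_one hx
  have hwx : inner ℂ w x = (0 : ℂ) := by
    rw [← inner_conj_symm, hw2, map_zero]
  refine ⟨conj q • x + ((√(1 - ‖q‖ ^ 2) : ℝ) : ℂ) • w, ?_, ?_⟩
  · have h1 := norm_comb hx hw2 (conj q) ((√(1 - ‖q‖ ^ 2) : ℝ) : ℂ)
    rw [RCLike.norm_conj, Complex.norm_real, Real.norm_eq_abs, sq_abs,
      Real.sq_sqrt (by linarith), hw1] at h1
    have h3 : ‖conj q • x + ((√(1 - ‖q‖ ^ 2) : ℝ) : ℂ) • w‖ ^ 2 = 1 ^ 2 := by rw [h1]; ring
    exact (pow_left_inj₀ (norm_nonneg _) zero_le_one two_ne_zero).1 h3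
  · rw [inner_add_left, inner_smul_left, inner_smul_left, hxx, hwx, Complex.conj_conj]
    ring

/-- the scaled `q`-numerical range is bounded -/
lemma Omega_norm_le {n : ℕ} (A : Matrix (Fin n) (Fin n) ℂ) (q : ℂ) {z : ℂ} (hz : z ∈ Omega A q) :
    ‖z‖ ≤ ‖Matrix.toEuclideanCLM (n := Fin n) (𝕜 := ℂ) A‖ / ‖q‖ := by
  obtain ⟨x, y, hx, hy, -, rfl⟩ := hz
  rw [norm_div]
  gcongr
  calc ‖inner ℂ y (Matrix.toEuclideanCLM (n := Fin n) (𝕜 := ℂ) A x)‖
      ≤ ‖y‖ * ‖Matrix.toEuclideanCLM (n := Fin n) (𝕜 := ℂ) A x‖ := norm_inner_le_norm _ _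
    _ ≤ 1 * (‖Matrix.toEuclideanCLM (n := Fin n) (𝕜 := ℂ) A‖ * 1) := by
        rw [hy]
        gcongr
        rw [← hx]
        exact ContinuousLinearMap.le_opNorm _ _
    _ = _ := by ring

lemma bdd {n : ℕ} (A : Matrix (Fin n) (Fin n) ℂ) (q : ℂ) (p : ℂ[X]) :
    BddAbove (Set.range fun z : Omega A q => ‖p.eval (z : ℂ)‖) := by
  have h1 : IsCompact ((fun z : ℂ => ‖p.eval z‖) ''
      Metric.closedBall (0 : ℂ) (‖Matrix.toEuclideanCLM (n := Fin n) (𝕜 := ℂ) A‖ / ‖q‖)) :=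
    (isCompact_closedBall _ _).image (p.continuous.norm)
  refine h1.bddAbove.mono ?_
  rintro _ ⟨z, rfl⟩
  exact ⟨z, by simpa using Omega_norm_le A q z.2, rfl⟩

/-- the main estimate -/
theorem main {n : ℕ} (hn : 2 ≤ n) (A : Matrix (Fin n) (Fin n) ℂ) {q : ℂ} (hq0 : q ≠ 0)
    (hq2 : ‖q‖ ^ 2 ≤ 1 / 2) (p : ℂ[X]) (M : ℝ) (hM : ∀ z ∈ Omega A q, ‖p.eval z‖ ≤ M) :
    ‖Matrix.toEuclideanCLM (n := Fin n) (𝕜 := ℂ) (aeval A p)‖ ≤ M := by
  have : NeZero n := ⟨by omega⟩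
  obtain ⟨a, x, hx, ha, hst⟩ := stampfli (Matrix.toEuclideanCLM (n := Fin n) (𝕜 := ℂ) A)
  set L := Matrix.toEuclideanCLM (n := Fin n) (𝕜 := ℂ) A with hL
  have hqn : 0 < ‖q‖ := norm_pos_iff.2 hq0
  rcases (norm_nonneg (L x - a • x)).eq_or_lt with hr | hr
  · -- the scalar case
    have h1 : ∀ v, L v = a • v := by
      intro v
      have h2 := hst v
      rw [← hr, zero_mul] at h2
      exact sub_eq_zero.1 (norm_le_zero_iff.1 h2)
    have h2 : L = algebraMap ℂ _ a := by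
      ext1 v
      rw [h1 v, Algebra.algebraMap_eq_smul_one]
      rfl
    have h3 : Matrix.toEuclideanCLM (n := Fin n) (𝕜 := ℂ) (aeval A p) =
        algebraMap ℂ _ (p.eval a) := by
      rw [← aeval_clm, ← hL, h2, Polynomial.aeval_algebraMap_apply]
      simp
    obtain ⟨y, hy1, hy2⟩ := exists_y hn hx (q := q) (by linarith)
    have h4 : a ∈ Omega A q := by
      refine ⟨x, y, hx, hy1, hy2, ?_⟩
      rw [← hL, h1 x, inner_smul_right, hy2, mul_div_cancel_right₀ _ hq0]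
    rw [h3, norm_algebraMap']
    exact hM a h4
  · set r := ‖L x - a • x‖ with hrd
    set s : ℝ := √(1 - ‖q‖ ^ 2) with hs
    have hs2 : s ^ 2 = 1 - ‖q‖ ^ 2 := Real.sq_sqrt (by linarith)
    have hs0 : 0 < s := Real.sqrt_pos.2 (by linarith)
    have hqs : ‖q‖ ≤ s := by
      apply abs_le_of_sq_le_sq' _ hs0.le |>.2
      rw [hs2]; linarith
    set ρ : ℝ := r * s / ‖q‖ with hρ
    have hρ0 : 0 < ρ := by positivity
    have hrρ : r ≤ ρ := by
      rw [hρ, le_div_iff₀ hqn]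
      gcongr
    have hρC : (ρ : ℂ) ≠ 0 := by exact_mod_cast hρ0.ne'
    set T : Matrix (Fin n) (Fin n) ℂ := (ρ : ℂ)⁻¹ • (A - algebraMap ℂ _ a) with hT
    set F : ℂ[X] := p.comp (C a + C (ρ : ℂ) * X) with hF
    have h1 : aeval T F = aeval A p := by
      rw [hF, Polynomial.aeval_comp]
      congr 1
      simp only [map_add, map_mul, aeval_C, aeval_X]
      rw [hT, Algebra.algebraMap_eq_smul_one (ρ : ℂ), smul_mul_assoc, one_mul, smul_smul,
        mul_inv_cancel₀ hρC, one_smul]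
      rw [add_sub_cancel]
    rw [← h1]
    apply vN T _ F M
    · intro ζ hζ
      rw [hF, eval_comp]
      simp only [eval_add, eval_mul, eval_C, eval_X]
      apply hM
      obtain ⟨y, hy1, hy2, hy3⟩ := circle hx ha hq0 (by linarith) hr hζ
      refine ⟨x, y, hx, hy1, hy2, ?_⟩
      rw [← hL, hy3, mul_div_cancel_left₀ _ hq0]
    · refine ContinuousLinearMap.opNorm_le_bound _ zero_le_one fun v => ?_
      have h2 : Matrix.toEuclideanCLM (n := Fin n) (𝕜 := ℂ) T v = (ρ : ℂ)⁻¹ • (L v - a • v) := by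
        rw [hT, map_smul, map_sub, Algebra.algebraMap_eq_smul_one, map_smul, map_one]
        rfl
      rw [h2, norm_smul, norm_inv, Complex.norm_real, Real.norm_eq_abs, abs_of_pos hρ0, one_mul,
        inv_mul_le_iff₀ hρ0]
      exact (hst v).trans (by gcongr)

end Pool.Agent.W2helper49.CQ
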